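import Pool.Agent.H722B.Core

set_option autoImplicit false
set_option linter.unusedSectionVars false
open scoped BigOperators ComplexConjugate InnerProductSpace Kronecker ENNReal
open Complex

namespace Pool.Agent.H722B

section ops
variable {I1 I2 : Type*} [Fintype I1] [Fintype I2] [DecidableEq I1] [DecidableEq I2]

noncomputable def opA (I2 : Type*) [Fintype I2] [DecidableEq I2] (F : Matrix I1 I1 ℂ) :
    EuclideanSpace ℂ (I1 × I2) →L[ℂ] EuclideanSpace ℂ (I1 × I2) :=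
  Matrix.toEuclideanCLM (𝕜 := ℂ) (F ⊗ₖ (1 : Matrix I2 I2 ℂ))

noncomputable def opB (I1 : Type*) [Fintype I1] [DecidableEq I1] (G : Matrix I2 I2 ℂ) :
    EuclideanSpace ℂ (I1 × I2) →L[ℂ] EuclideanSpace ℂ (I1 × I2) :=
  Matrix.toEuclideanCLM (𝕜 := ℂ) ((1 : Matrix I1 I1 ℂ) ⊗ₖ G)

lemma toEuclideanCLM_apply' {I : Type*} [Fintype I] [DecidableEq I] (M : Matrix I I ℂ)
    (x : EuclideanSpace ℂ I) (p : I) :
    (Matrix.toEuclideanCLM (𝕜 := ℂ) M x) p = ∑ q, M p q * x q := by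
  exact congrFun (Matrix.ofLp_toEuclideanCLM M x) p

lemma opA_apply (F : Matrix I1 I1 ℂ) (x : EuclideanSpace ℂ (I1 × I2)) (p : I1 × I2) :
    opA I2 F x p = ∑ i, F p.1 i * x (i, p.2) := by
  unfold opA
  rw [toEuclideanCLM_apply', Fintype.sum_prod_type]
  refine Finset.sum_congr rfl fun i _ => ?_
  simp [Matrix.kroneckerMap_apply, Matrix.one_apply]

lemma opB_apply (G : Matrix I2 I2 ℂ) (x : EuclideanSpace ℂ (I1 × I2)) (p : I1 × I2) :
    opB I1 G x p = ∑ j, G p.2 j * x (p.1, j) := by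
  unfold opB
  rw [toEuclideanCLM_apply', Fintype.sum_prod_type]
  rw [Finset.sum_eq_single p.1]
  · simp [Matrix.kroneckerMap_apply]
  · intro b _ hb
    simp [Matrix.kroneckerMap_apply, Matrix.one_apply, hb.symm]
  · simp

lemma opA_norm (F : Matrix I1 I1 ℂ) (C : ℝ) (hC : 0 ≤ C)
    (h : ∀ x : I1 → ℂ, ∑ i, ‖∑ j, F i j * x j‖ ^ 2 ≤ C ^ 2 * ∑ j, ‖x j‖ ^ 2) :
    ‖opA I2 F‖ ≤ C := by
  refine ContinuousLinearMap.opNorm_le_bound _ hC fun x => ?_
  refine abs_le_of_sq_le_sq' ?_ (by positivity) |>.2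
  rw [mul_pow, EuclideanSpace.norm_sq_eq, EuclideanSpace.norm_sq_eq]
  simp_rw [opA_apply]
  rw [Fintype.sum_prod_type_right, Fintype.sum_prod_type_right, Finset.mul_sum]
  refine Finset.sum_le_sum fun j _ => ?_
  exact h (fun i => x (i, j))

lemma opB_norm (G : Matrix I2 I2 ℂ) (C : ℝ) (hC : 0 ≤ C)
    (h : ∀ x : I2 → ℂ, ∑ i, ‖∑ j, G i j * x j‖ ^ 2 ≤ C ^ 2 * ∑ j, ‖x j‖ ^ 2) :
    ‖opB I1 G‖ ≤ C := by
  refine ContinuousLinearMap.opNorm_le_bound _ hC fun x => ?_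
  refine abs_le_of_sq_le_sq' ?_ (by positivity) |>.2
  rw [mul_pow, EuclideanSpace.norm_sq_eq, EuclideanSpace.norm_sq_eq]
  simp_rw [opB_apply]
  rw [Fintype.sum_prod_type, Fintype.sum_prod_type, Finset.mul_sum]
  refine Finset.sum_le_sum fun i _ => ?_
  exact h (fun j => x (i, j))

lemma opA_opB_comm (F : Matrix I1 I1 ℂ) (G : Matrix I2 I2 ℂ) (x : EuclideanSpace ℂ (I1 × I2)) :
    opA I2 F (opB I1 G x) = opB I1 G (opA I2 F x) := by
  have : opA I2 F * opB I1 G = opB I1 G * opA I2 F := by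
    unfold opA opB
    rw [← map_mul, ← map_mul, ← Matrix.mul_kronecker_mul, ← Matrix.mul_kronecker_mul]
    simp
  exact DFunLike.congr_fun this x

lemma opB_adjoint (G : Matrix I2 I2 ℂ) :
    ContinuousLinearMap.adjoint (opB I1 G) = opB I1 G.conjTranspose := by
  unfold opB
  rw [← ContinuousLinearMap.star_eq_adjoint, ← map_star]
  congr 1
  rw [Matrix.star_eq_conjTranspose, Matrix.conjTranspose_kronecker]
  simp

lemma opA_opB_apply (F : Matrix I1 I1 ℂ) (G : Matrix I2 I2 ℂ) (x : EuclideanSpace ℂ (I1 × I2))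
    (p : I1 × I2) :
    opA I2 F (opB I1 G x) p = ∑ q : I1 × I2, F p.1 q.1 * G p.2 q.2 * x q := by
  rw [opA_apply, Fintype.sum_prod_type]
  refine Finset.sum_congr rfl fun i _ => ?_
  rw [opB_apply, Finset.mul_sum]
  refine Finset.sum_congr rfl fun j _ => ?_
  ring

end ops

section blk
variable {K Z : Type*} [Fintype K] [Fintype Z] [DecidableEq K] [DecidableEq Z]

/-- the block matrix built from two families of scalars -/
noncomputable def bMat (c : ℂ) (v : K → Z → Z → ℂ) (f g : K → Z → Z → ℂ) :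
    Matrix (Z × Z) (Z × Z) ℂ :=
  fun i j => c * ∑ k, conj (v k i.1 i.2) * v k j.1 j.2 * (f k i.1 j.1 * g k i.2 j.2)

noncomputable def bOp (c : ℂ) (v : K → Z → Z → ℂ) (f g : K → Z → Z → ℂ) :
    EuclideanSpace ℂ (Z × Z) →L[ℂ] EuclideanSpace ℂ (Z × Z) :=
  Matrix.toEuclideanCLM (𝕜 := ℂ) (bMat c v f g)

theorem blk_ineq {I1 I2 : Type*} [Fintype I1] [Fintype I2] [DecidableEq I1] [DecidableEq I2]
    (c : ℂ) (v : K → Z → Z → ℂ) (hv : ∀ k s t, ‖v k s t‖ ≤ 1)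
    (q : ℝ) (hq0 : 0 < q) (hq : q ^ 2 = Fintype.card Z)
    (hw : ∀ k l, k ≠ l → ∀ t t', ∑ s, (v k s t * conj (v l s t)) *
      conj (v k s t' * conj (v l s t')) = if t = t' then (Fintype.card Z : ℂ) else 0)
    (hc : ‖c‖ ^ 2 * ((Fintype.card K : ℝ) * (Fintype.card Z : ℝ) ^ 4
          + (Fintype.card K : ℝ) ^ 2 * (q * (Fintype.card Z : ℝ) ^ 3)) ≤ 1)
    (F : K → Z → Z → Matrix I1 I1 ℂ) (G : K → Z → Z → Matrix I2 I2 ℂ)
    (Ca Cb : ℝ) (hCa : 0 ≤ Ca) (hCb : 0 ≤ Cb)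
    (hF : ∀ k s t, ∀ x : I1 → ℂ, ∑ i, ‖∑ j, F k s t i j * x j‖ ^ 2 ≤ Ca ^ 2 * ∑ j, ‖x j‖ ^ 2)
    (hG : ∀ k s t, ∀ x : I2 → ℂ, ∑ i, ‖∑ j, G k s t i j * x j‖ ^ 2 ≤ Cb ^ 2 * ∑ j, ‖x j‖ ^ 2)
    (x : I1 × I2 → EuclideanSpace ℂ (Z × Z)) :
    ∑ p : I1 × I2, ‖∑ q : I1 × I2, bOp c v (fun k s t => F k s t p.1 q.1)
        (fun k s t => G k s t p.2 q.2) (x q)‖ ^ 2 ≤ (Ca * Cb) ^ 2 * ∑ q, ‖x q‖ ^ 2 := by
  let α : K → Z → Z → (EuclideanSpace ℂ (I1 × I2) →L[ℂ] EuclideanSpace ℂ (I1 × I2)) :=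
    fun k s t => opA I2 (F k s t)
  let β : K → Z → Z → (EuclideanSpace ℂ (I1 × I2) →L[ℂ] EuclideanSpace ℂ (I1 × I2)) :=
    fun k s t => opB I1 (G k s t)
  let ξ : Z → Z → EuclideanSpace ℂ (I1 × I2) := fun s t => WithLp.toLp 2 (fun q => x q (s, t))
  have hcore := core' v α β ξ hv Ca Cb
    (fun k s t => opA_norm _ _ hCa (hF k s t)) (fun k s t => opB_norm _ _ hCb (hG k s t))
    hCa hCb
    (fun k s s' l t t' y => opA_opB_comm _ _ _)
    (fun k s s' l t t' y => by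
      change (ContinuousLinearMap.adjoint (opB I1 (G l t t'))) (opA I2 (F k s s') y)
        = opA I2 (F k s s') ((ContinuousLinearMap.adjoint (opB I1 (G l t t'))) y)
      rw [opB_adjoint, opA_opB_comm])
    q hq0 hq hw
  have hξ : ∑ s', ∑ t', ‖ξ s' t'‖ ^ 2 = ∑ q, ‖x q‖ ^ 2 := by
    simp_rw [EuclideanSpace.norm_sq_eq]
    rw [← Fintype.sum_prod_type (f := fun st : Z × Z => ∑ i, ‖(ξ st.1 st.2) i‖ ^ 2),
      Finset.sum_comm]
  have hLHS : ∑ p : I1 × I2, ‖∑ q : I1 × I2, bOp c v (fun k s t => F k s t p.1 q.1)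
        (fun k s t => G k s t p.2 q.2) (x q)‖ ^ 2
      = ‖c‖ ^ 2 * ∑ s, ∑ t, ‖∑ k, conj (v k s t) • PP v α β ξ k s t‖ ^ 2 := by
    have hpt : ∀ (p : I1 × I2) (s t : Z),
        (∑ q : I1 × I2, bOp c v (fun k s t => F k s t p.1 q.1)
          (fun k s t => G k s t p.2 q.2) (x q)) (s, t)
        = c * (∑ k, conj (v k s t) • PP v α β ξ k s t) p := by
      intro p s t
      rw [WithLp.ofLp_sum, WithLp.ofLp_sum, Finset.sum_apply, Finset.sum_apply]
      have e1 : ∀ q : I1 × I2, (bOp c v (fun k s t => F k s t p.1 q.1)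
          (fun k s t => G k s t p.2 q.2) (x q)) (s, t)
          = ∑ k, ∑ s', ∑ t', c * (conj (v k s t) * (v k s' t' *
            (F k s s' p.1 q.1 * G k t t' p.2 q.2 * x q (s', t')))) := by
        intro q
        unfold bOp
        rw [toEuclideanCLM_apply', Fintype.sum_prod_type]
        unfold bMat
        simp_rw [Finset.mul_sum, Finset.sum_mul]
        calc _ = ∑ s', ∑ k, ∑ t', c * (conj (v k s t) * v k s' t' *
              (F k s s' p.1 q.1 * G k t t' p.2 q.2)) * x q (s', t') :=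
              Finset.sum_congr rfl fun s' _ => Finset.sum_comm
          _ = ∑ k, ∑ s', ∑ t', c * (conj (v k s t) * v k s' t' *
              (F k s s' p.1 q.1 * G k t t' p.2 q.2)) * x q (s', t') := Finset.sum_comm
          _ = _ := by
              refine Finset.sum_congr rfl fun k _ => Finset.sum_congr rfl fun s' _ =>
                Finset.sum_congr rfl fun t' _ => ?_
              ring
      simp_rw [e1]
      rw [Finset.mul_sum, Finset.sum_comm]
      refine Finset.sum_congr rfl fun k _ => ?_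
      have e2 : (conj (v k s t) • PP v α β ξ k s t) p
          = conj (v k s t) * ∑ s', ∑ t', v k s' t' *
            ∑ q : I1 × I2, F k s s' p.1 q.1 * G k t t' p.2 q.2 * x q (s', t') := by
        unfold PP
        rw [WithLp.ofLp_smul, Pi.smul_apply, smul_eq_mul]
        congr 1
        rw [WithLp.ofLp_sum, Finset.sum_apply]
        refine Finset.sum_congr rfl fun s' _ => ?_
        rw [WithLp.ofLp_sum, Finset.sum_apply]
        refine Finset.sum_congr rfl fun t' _ => ?_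
        rw [WithLp.ofLp_smul, Pi.smul_apply, smul_eq_mul]
        congr 1
        exact opA_opB_apply _ _ _ _
      rw [e2]
      simp_rw [Finset.mul_sum]
      rw [Finset.sum_comm]
      refine Finset.sum_congr rfl fun s' _ => ?_
      rw [Finset.sum_comm]
    have e3 : ∀ p : I1 × I2, ‖∑ q : I1 × I2, bOp c v (fun k s t => F k s t p.1 q.1)
        (fun k s t => G k s t p.2 q.2) (x q)‖ ^ 2
        = ∑ s, ∑ t, ‖c‖ ^ 2 * ‖(∑ k, conj (v k s t) • PP v α β ξ k s t) p‖ ^ 2 := by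
      intro p
      rw [EuclideanSpace.norm_sq_eq, Fintype.sum_prod_type]
      refine Finset.sum_congr rfl fun s _ => Finset.sum_congr rfl fun t _ => ?_
      rw [hpt, norm_mul, mul_pow]
    simp_rw [e3]
    rw [Finset.sum_comm, Finset.mul_sum]
    refine Finset.sum_congr rfl fun s _ => ?_
    rw [Finset.sum_comm, Finset.mul_sum]
    refine Finset.sum_congr rfl fun t _ => ?_
    rw [EuclideanSpace.norm_sq_eq, Finset.mul_sum]
  rw [hLHS, ← hξ]
  refine (mul_le_mul_of_nonneg_left hcore (by positivity)).trans ?_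
  have h0 : 0 ≤ (Ca * Cb) ^ 2 * ∑ s', ∑ t', ‖ξ s' t'‖ ^ 2 := by positivity
  calc _ = (‖c‖ ^ 2 * ((Fintype.card K : ℝ) * (Fintype.card Z : ℝ) ^ 4
          + (Fintype.card K : ℝ) ^ 2 * (q * (Fintype.card Z : ℝ) ^ 3)))
          * ((Ca * Cb) ^ 2 * ∑ s', ∑ t', ‖ξ s' t'‖ ^ 2) := by ring
    _ ≤ 1 * ((Ca * Cb) ^ 2 * ∑ s', ∑ t', ‖ξ s' t'‖ ^ 2) := by gcongr
    _ = _ := by ring

end blk

end Pool.Agent.H722B
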