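import Mathlib

set_option autoImplicit false
set_option linter.unusedSectionVars false
open scoped BigOperators ComplexConjugate InnerProductSpace CStarMatrix WithCStarModule ComplexOrder
open Complex

namespace Pool.Agent.H722B

variable {A : Type*} [NonUnitalCStarAlgebra A] [PartialOrder A] [StarOrderedRing A]
variable {m n : Type*} [Fintype m] [Fintype n]

/-- a minimal projection with its character -/
structure MinProj (A : Type*) [NonUnitalCStarAlgebra A] where
  e : A
  χ : A → ℂ
  mul_self : e * e = e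
  star_self : star e = e
  norm_e : ‖e‖ = 1
  mul_eq : ∀ a, e * a = χ a • e
  χ_star : ∀ a, χ (star a) = conj (χ a)

lemma norm_sum_minProj (P : MinProj A) {κ : Type*} [Fintype κ] (c : κ → ℂ) :
    ‖∑ i, (c i • P.e) * star (c i • P.e)‖ = ∑ i, ‖c i‖ ^ 2 := by
  have hin : ∀ c : ℂ, (c • P.e) * star (c • P.e) = ((‖c‖ ^ 2 : ℝ) : ℂ) • P.e := by
    intro c
    rw [star_smul, P.star_self, smul_mul_assoc, mul_smul_comm, P.mul_self, smul_smul]
    congr 1
    change c * conj c = _
    rw [Complex.mul_conj, Complex.normSq_eq_norm_sq]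
  simp_rw [hin]
  rw [← Finset.sum_smul, norm_smul, P.norm_e, mul_one, ← Complex.ofReal_sum,
    Complex.norm_real, Real.norm_of_nonneg (by positivity)]

lemma row_bound (P : MinProj A) (M : CStarMatrix m n A) (x : m → ℂ) :
    ∑ j, ‖∑ i, x i * P.χ (M i j)‖ ^ 2 ≤ ‖M‖ ^ 2 * ∑ i, ‖x i‖ ^ 2 := by
  let v : C⋆ᵐᵒᵈ(A, m → A) := (WithCStarModule.equiv A (m → A)).symm (fun i => x i • P.e)
  have hvi : ∀ i, v i = x i • P.e := fun i => rfl
  have h1 : ‖v‖ ^ 2 = ∑ i, ‖x i‖ ^ 2 := by
    rw [WithCStarModule.pi_norm_sq]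
    simp only [WithCStarModule.inner_def, hvi]
    exact norm_sum_minProj P x
  have h2 : ‖CStarMatrix.toCLM M v‖ ^ 2 = ∑ j, ‖∑ i, x i * P.χ (M i j)‖ ^ 2 := by
    rw [WithCStarModule.pi_norm_sq]
    have : ∀ j, (CStarMatrix.toCLM M v) j = (∑ i, x i * P.χ (M i j)) • P.e := by
      intro j
      rw [CStarMatrix.toCLM_apply_eq_sum]
      change ∑ i, v i * M i j = _
      rw [Finset.sum_smul]
      refine Finset.sum_congr rfl fun i _ => ?_
      rw [hvi, smul_mul_assoc, P.mul_eq, smul_smul]
    simp only [WithCStarModule.inner_def, this]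
    exact norm_sum_minProj P _
  rw [← h1, ← h2]
  have h3 : ‖CStarMatrix.toCLM M v‖ ≤ ‖M‖ * ‖v‖ := by
    rw [CStarMatrix.norm_def]
    exact (CStarMatrix.toCLM M).le_opNorm v
  calc ‖CStarMatrix.toCLM M v‖ ^ 2 ≤ (‖M‖ * ‖v‖) ^ 2 := by
        gcongr
    _ = _ := by ring

lemma col_bound (P : MinProj A) (M : CStarMatrix n n A) (x : n → ℂ) :
    ∑ i, ‖∑ j, P.χ (M i j) * x j‖ ^ 2 ≤ ‖M‖ ^ 2 * ∑ j, ‖x j‖ ^ 2 := by
  have h := row_bound P (star M) (fun j => conj (x j))
  rw [norm_star] at h
  have e1 : ∀ i, ‖∑ j, conj (x j) * P.χ ((star M) j i)‖ = ‖∑ j, P.χ (M i j) * x j‖ := by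
    intro i
    have : ∑ j, conj (x j) * P.χ ((star M) j i) = conj (∑ j, P.χ (M i j) * x j) := by
      rw [map_sum]
      refine Finset.sum_congr rfl fun j _ => ?_
      rw [CStarMatrix.star_apply, P.χ_star, map_mul]
      ring
    rw [this, RCLike.norm_conj]
  simp_rw [e1, RCLike.norm_conj] at h
  exact h

lemma norm_le_one_of_proj {B : Type*} [NonUnitalCStarAlgebra B] {M P : B}
    (h1 : M * star M = P) (h2 : P * P = P) (h3 : star P = P) : ‖M‖ ≤ 1 := by
  have hP : ‖P‖ ≤ 1 := by
    have h := CStarRing.norm_self_mul_star (x := P)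
    rw [h3, h2] at h
    by_contra hcon
    push Not at hcon
    nlinarith
  have h := CStarRing.norm_self_mul_star (x := M)
  rw [h1] at h
  by_contra hcon
  push Not at hcon
  nlinarith

def patM {ι Ω : Type*} (e : Ω → A) (w : ι → ι → ℂ) (idx : ι → ι → Ω) : CStarMatrix ι ι A :=
  fun i j => w i j • e (idx i j)

lemma patM_apply {ι Ω : Type*} (e : Ω → A) (w : ι → ι → ℂ) (idx : ι → ι → Ω) (i j : ι) :
    patM e w idx i j = w i j • e (idx i j) := rfl

def diagM {ι : Type*} [DecidableEq ι] (D : ι → A) : CStarMatrix ι ι A :=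
  fun i j => if i = j then D i else 0

lemma diagM_apply {ι : Type*} [DecidableEq ι] (D : ι → A) (i j : ι) :
    diagM D i j = if i = j then D i else 0 := rfl

/-- matrices whose entries are unimodular multiples of orthogonal projections in a
partial isometry pattern have norm at most one -/
lemma norm_pattern {ι Ω : Type*} [Fintype ι] [DecidableEq ι] [DecidableEq Ω] (e : Ω → A)
    (he : ∀ a b, e a * e b = if a = b then e a else 0) (hs : ∀ a, star (e a) = e a)
    (w : ι → ι → ℂ) (hw : ∀ i j, w i j = 0 ∨ w i j * conj (w i j) = 1) (idx : ι → ι → Ω)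
    (h1 : ∀ i j l, i ≠ j → w i l ≠ 0 → w j l ≠ 0 → idx i l ≠ idx j l)
    (h2 : ∀ i l l', w i l ≠ 0 → w i l' ≠ 0 → idx i l = idx i l' → l = l') :
    ‖patM e w idx‖ ≤ 1 := by
  have ha : ∀ i l, (w i l * conj (w i l) = 0 ∧ w i l = 0) ∨ (w i l * conj (w i l) = 1 ∧ w i l ≠ 0) := by
    intro i l
    rcases hw i l with h | h
    · left; simp [h]
    · right
      refine ⟨h, fun h0 => ?_⟩
      rw [h0] at h
      simp at h
  let D : ι → A := fun i => ∑ l, (w i l * conj (w i l)) • e (idx i l)
  have hDD : ∀ i, D i * D i = D i := by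
    intro i
    change (∑ l, (w i l * conj (w i l)) • e (idx i l)) * (∑ l, (w i l * conj (w i l)) • e (idx i l))
      = ∑ l, (w i l * conj (w i l)) • e (idx i l)
    rw [Finset.sum_mul_sum]
    refine Finset.sum_congr rfl fun l _ => ?_
    rw [Finset.sum_eq_single l]
    · rw [smul_mul_assoc, mul_smul_comm, he, if_pos rfl, smul_smul]
      congr 1
      rcases ha i l with h | h
      · rw [h.1]; ring
      · rw [h.1]; ring
    · intro l' _ hl'
      rw [smul_mul_assoc, mul_smul_comm, he]
      rcases ha i l with h | h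
      · rw [h.1, zero_smul]
      rcases ha i l' with h' | h'
      · rw [h'.1, zero_smul, smul_zero]
      rw [if_neg, smul_zero, smul_zero]
      intro hidx
      exact hl' (h2 i l l' h.2 h'.2 hidx).symm
    · simp
  have hDs : ∀ i, star (D i) = D i := by
    intro i
    change star (∑ l, (w i l * conj (w i l)) • e (idx i l))
      = ∑ l, (w i l * conj (w i l)) • e (idx i l)
    rw [star_sum]
    refine Finset.sum_congr rfl fun l _ => ?_
    rw [star_smul, hs]
    congr 1
    rcases ha i l with h | h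
    · rw [h.1]; simp
    · rw [h.1]; simp
  refine norm_le_one_of_proj (P := diagM D) ?_ ?_ ?_
  · refine CStarMatrix.ext fun i j => ?_
    rw [CStarMatrix.mul_apply]
    simp only [CStarMatrix.star_apply, patM_apply, diagM_apply]
    by_cases hij : i = j
    · subst hij
      rw [if_pos rfl]
      refine Finset.sum_congr rfl fun l _ => ?_
      rw [star_smul, hs, smul_mul_assoc, mul_smul_comm, he, if_pos rfl, smul_smul]
      rfl
    · rw [if_neg hij]
      refine Finset.sum_eq_zero fun l _ => ?_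
      rw [star_smul, hs, smul_mul_assoc, mul_smul_comm, he]
      by_cases hil : w i l = 0
      · rw [hil, zero_smul]
      by_cases hjl : w j l = 0
      · rw [hjl]; simp
      rw [if_neg (h1 i j l hij hil hjl), smul_zero, smul_zero]
  · refine CStarMatrix.ext fun i j => ?_
    rw [CStarMatrix.mul_apply]
    simp only [diagM_apply]
    rw [Finset.sum_eq_single i]
    · rw [if_pos rfl]
      by_cases hij : i = j
      · subst hij
        rw [if_pos rfl, hDD]
      · rw [if_neg hij, mul_zero]
    · intro k _ hk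
      rw [if_neg (Ne.symm hk), zero_mul]
    · simp
  · refine CStarMatrix.ext fun i j => ?_
    rw [CStarMatrix.star_apply]
    simp only [diagM_apply]
    by_cases hij : i = j
    · subst hij
      rw [if_pos rfl, hDs]
    · rw [if_neg hij, if_neg (Ne.symm hij), star_zero]

end Pool.Agent.H722B
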