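import Mathlib

set_option autoImplicit false
set_option linter.unusedSectionVars false
set_option linter.unusedDecidableInType false
set_option linter.unusedFintypeInType false
open scoped BigOperators ComplexConjugate InnerProductSpace
open Complex

namespace Pool.Agent.H722B

variable {E : Type*} [NormedAddCommGroup E] [InnerProductSpace ℂ E]
variable {K Z : Type*} [Fintype K] [Fintype Z] [DecidableEq K] [DecidableEq Z]

lemma norm_sq_eq_inner (x : E) : ((‖x‖ ^ 2 : ℝ) : ℂ) = ⟪x, x⟫_ℂ := by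
  rw [inner_self_eq_norm_sq_to_K]
  push_cast
  rfl

/-- orthogonal columns give an exact `ℓ²` identity for vector valued sums -/
lemma sum_norm_sq_of_orth (w : Z → Z → ℂ)
    (hw : ∀ t t', ∑ s, conj (w s t) * w s t' = if t = t' then (Fintype.card Z : ℂ) else 0)
    (F : Z → E) :
    ∑ s, ‖∑ t, w s t • F t‖ ^ 2 = (Fintype.card Z : ℝ) * ∑ t, ‖F t‖ ^ 2 := by
  have h : ((∑ s, ‖∑ t, w s t • F t‖ ^ 2 : ℝ) : ℂ)
      = ((Fintype.card Z : ℝ) * ∑ t, ‖F t‖ ^ 2 : ℝ) := by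
    push_cast
    have h1 : ∀ s, ((‖∑ t, w s t • F t‖ : ℂ)) ^ 2
        = ∑ t, ∑ t', (conj (w s t) * w s t') * ⟪F t, F t'⟫_ℂ := by
      intro s
      have := norm_sq_eq_inner (∑ t, w s t • F t)
      push_cast at this
      rw [this, sum_inner]
      refine Finset.sum_congr rfl fun t _ => ?_
      rw [inner_sum]
      refine Finset.sum_congr rfl fun t' _ => ?_
      rw [inner_smul_left, inner_smul_right]
      ring
    simp_rw [h1]
    rw [Finset.sum_comm]
    rw [Finset.mul_sum]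
    refine Finset.sum_congr rfl fun t _ => ?_
    rw [Finset.sum_comm]
    have h2 : ∀ t', ∑ s, (conj (w s t) * w s t') * ⟪F t, F t'⟫_ℂ
        = (if t = t' then (Fintype.card Z : ℂ) else 0) * ⟪F t, F t'⟫_ℂ := by
      intro t'
      rw [← Finset.sum_mul, hw]
    simp_rw [h2]
    simp only [ite_mul, zero_mul, Finset.sum_ite_eq, Finset.mem_univ, if_true]
    have := norm_sq_eq_inner (F t)
    push_cast at this
    rw [this]
  exact_mod_cast h

lemma sq_sum_le (f : Z → ℝ) : (∑ t, f t) ^ 2 ≤ (Fintype.card Z : ℝ) * ∑ t, f t ^ 2 := by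
  have := sq_sum_le_card_mul_sum_sq (s := (Finset.univ : Finset Z)) (f := f)
  simpa using this

variable [CompleteSpace E]

section
variable (v : K → Z → Z → ℂ) (α β : K → Z → Z → (E →L[ℂ] E)) (ξ : Z → Z → E)

/-- the vector `P k s t` -/
noncomputable def PP (k : K) (s t : Z) : E :=
  ∑ s', ∑ t', v k s' t' • α k s s' (β k t t' (ξ s' t'))

noncomputable def FF (k l : K) (t s' t'' : Z) : E :=
  ∑ t', v k s' t' • (ContinuousLinearMap.adjoint (β l t t'')) (β k t t' (ξ s' t'))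

noncomputable def GG (k l : K) (s s' t'' : Z) : E :=
  ∑ s'', v l s'' t'' • (ContinuousLinearMap.adjoint (α k s s')) (α l s s'' (ξ s'' t''))

variable (hv : ∀ k s t, ‖v k s t‖ ≤ 1)
  (hα : ∀ k s t, ‖α k s t‖ ≤ 1) (hβ : ∀ k s t, ‖β k s t‖ ≤ 1)
  (hc1 : ∀ k s s' l t t' x, α k s s' (β l t t' x) = β l t t' (α k s s' x))
  (hc2 : ∀ k s s' l t t' x, (ContinuousLinearMap.adjoint (β l t t')) (α k s s' x)
    = α k s s' ((ContinuousLinearMap.adjoint (β l t t')) x))

include hc1 hc2 in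
lemma inner_PP (k l : K) (s t : Z) :
    ⟪PP v α β ξ k s t, PP v α β ξ l s t⟫_ℂ
      = ∑ s', ∑ t'', ⟪FF v β ξ k l t s' t'', GG v α ξ k l s s' t''⟫_ℂ := by
  unfold PP FF GG
  simp_rw [sum_inner, inner_sum]
  refine Finset.sum_congr rfl fun s' _ => ?_
  rw [Finset.sum_comm]
  have : ∀ s'' : Z, ∀ t' : Z, ∀ t'' : Z,
      ⟪v k s' t' • (α k s s') ((β k t t') (ξ s' t')), v l s'' t'' • (α l s s'') ((β l t t'') (ξ s'' t''))⟫_ℂ
      = ⟪v k s' t' • (ContinuousLinearMap.adjoint (β l t t'')) ((β k t t') (ξ s' t')),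
        v l s'' t'' • (ContinuousLinearMap.adjoint (α k s s')) ((α l s s'') (ξ s'' t''))⟫_ℂ := by
    intro s'' t' t''
    rw [inner_smul_left, inner_smul_right, inner_smul_left, inner_smul_right]
    congr 2
    rw [hc1 l s s'' l t t'', ← ContinuousLinearMap.adjoint_inner_left, hc2,
      ContinuousLinearMap.adjoint_inner_right]
  simp_rw [this]
  -- reorder sums
  rw [Finset.sum_comm]
  have e1 : ∀ t' : Z, ∑ s'' : Z, ∑ t'' : Z,
      ⟪v k s' t' • (ContinuousLinearMap.adjoint (β l t t'')) ((β k t t') (ξ s' t')),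
        v l s'' t'' • (ContinuousLinearMap.adjoint (α k s s')) ((α l s s'') (ξ s'' t''))⟫_ℂ
      = ∑ t'' : Z, ∑ s'' : Z,
      ⟪v k s' t' • (ContinuousLinearMap.adjoint (β l t t'')) ((β k t t') (ξ s' t')),
        v l s'' t'' • (ContinuousLinearMap.adjoint (α k s s')) ((α l s s'') (ξ s'' t''))⟫_ℂ :=
    fun t' => Finset.sum_comm
  simp_rw [e1]
  rw [Finset.sum_comm]

include hv hα hβ in
lemma norm_PP_le (k : K) (s t : Z) :
    ‖PP v α β ξ k s t‖ ^ 2 ≤ (Fintype.card Z : ℝ) ^ 2 * ∑ s', ∑ t', ‖ξ s' t'‖ ^ 2 := by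
  have h1 : ‖PP v α β ξ k s t‖ ≤ ∑ s', ∑ t', ‖ξ s' t'‖ := by
    unfold PP
    refine (norm_sum_le _ _).trans (Finset.sum_le_sum fun s' _ => ?_)
    refine (norm_sum_le _ _).trans (Finset.sum_le_sum fun t' _ => ?_)
    rw [norm_smul]
    calc ‖v k s' t'‖ * ‖(α k s s') ((β k t t') (ξ s' t'))‖
        ≤ 1 * (1 * (1 * ‖ξ s' t'‖)) := by
          gcongr
          · exact hv k s' t'
          · refine ((α k s s').le_opNorm _).trans ?_
            gcongr
            · exact hα k s s'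
            · refine ((β k t t').le_opNorm _).trans ?_
              gcongr
              exact hβ k t t'
      _ = ‖ξ s' t'‖ := by ring
  calc ‖PP v α β ξ k s t‖ ^ 2 ≤ (∑ s', ∑ t', ‖ξ s' t'‖) ^ 2 := by gcongr
    _ ≤ (Fintype.card Z : ℝ) * ∑ s', (∑ t', ‖ξ s' t'‖) ^ 2 := sq_sum_le _
    _ ≤ (Fintype.card Z : ℝ) * ∑ s', ((Fintype.card Z : ℝ) * ∑ t', ‖ξ s' t'‖ ^ 2) := by
        gcongr with s' _
        exact sq_sum_le _
    _ = (Fintype.card Z : ℝ) ^ 2 * ∑ s', ∑ t', ‖ξ s' t'‖ ^ 2 := by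
        rw [← Finset.mul_sum]; ring

include hv hβ in
lemma norm_FF_le (k l : K) (t s' t'' : Z) :
    ‖FF v β ξ k l t s' t''‖ ^ 2 ≤ (Fintype.card Z : ℝ) * ∑ t', ‖ξ s' t'‖ ^ 2 := by
  have h1 : ‖FF v β ξ k l t s' t''‖ ≤ ∑ t', ‖ξ s' t'‖ := by
    unfold FF
    refine (norm_sum_le _ _).trans (Finset.sum_le_sum fun t' _ => ?_)
    rw [norm_smul]
    calc ‖v k s' t'‖ * ‖(ContinuousLinearMap.adjoint (β l t t'')) ((β k t t') (ξ s' t'))‖
        ≤ 1 * (1 * (1 * ‖ξ s' t'‖)) := by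
          gcongr
          · exact hv k s' t'
          · refine ((ContinuousLinearMap.adjoint (β l t t'')).le_opNorm _).trans ?_
            gcongr
            · rw [LinearIsometryEquiv.norm_map]
              exact hβ l t t''
            · refine ((β k t t').le_opNorm _).trans ?_
              gcongr
              exact hβ k t t'
      _ = ‖ξ s' t'‖ := by ring
  calc ‖FF v β ξ k l t s' t''‖ ^ 2 ≤ (∑ t', ‖ξ s' t'‖) ^ 2 := by gcongr
    _ ≤ _ := sq_sum_le _

include hv hα in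
lemma norm_GG_le (k l : K) (s s' t'' : Z) :
    ‖GG v α ξ k l s s' t''‖ ^ 2 ≤ (Fintype.card Z : ℝ) * ∑ s'', ‖ξ s'' t''‖ ^ 2 := by
  have h1 : ‖GG v α ξ k l s s' t''‖ ≤ ∑ s'', ‖ξ s'' t''‖ := by
    unfold GG
    refine (norm_sum_le _ _).trans (Finset.sum_le_sum fun s'' _ => ?_)
    rw [norm_smul]
    calc ‖v l s'' t''‖ * ‖(ContinuousLinearMap.adjoint (α k s s')) ((α l s s'') (ξ s'' t''))‖
        ≤ 1 * (1 * (1 * ‖ξ s'' t''‖)) := by
          gcongr
          · exact hv l s'' t''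
          · refine ((ContinuousLinearMap.adjoint (α k s s')).le_opNorm _).trans ?_
            gcongr
            · rw [LinearIsometryEquiv.norm_map]
              exact hα k s s'
            · refine ((α l s s'').le_opNorm _).trans ?_
              gcongr
              exact hα l s s''
      _ = ‖ξ s'' t''‖ := by ring
  calc ‖GG v α ξ k l s s' t''‖ ^ 2 ≤ (∑ s'', ‖ξ s'' t''‖) ^ 2 := by gcongr
    _ ≤ _ := sq_sum_le _

noncomputable def DD (k l : K) : ℂ :=
  ∑ s, ∑ t, (v k s t * conj (v l s t)) * ⟪PP v α β ξ k s t, PP v α β ξ l s t⟫_ℂ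

include hv hα hβ in
lemma norm_DD_diag (k : K) :
    ‖DD v α β ξ k k‖ ≤ (Fintype.card Z : ℝ) ^ 4 * ∑ s', ∑ t', ‖ξ s' t'‖ ^ 2 := by
  unfold DD
  calc _ ≤ ∑ s, ∑ t, ‖(v k s t * conj (v k s t)) *
          ⟪PP v α β ξ k s t, PP v α β ξ k s t⟫_ℂ‖ := by
        refine (norm_sum_le _ _).trans (Finset.sum_le_sum fun s _ => ?_)
        exact norm_sum_le _ _
    _ ≤ ∑ s : Z, ∑ t : Z, ((Fintype.card Z : ℝ) ^ 2 * ∑ s', ∑ t', ‖ξ s' t'‖ ^ 2) := by
        refine Finset.sum_le_sum fun s _ => Finset.sum_le_sum fun t _ => ?_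
        rw [norm_mul, norm_mul, RCLike.norm_conj]
        have h1 := norm_inner_le_norm (𝕜 := ℂ) (PP v α β ξ k s t) (PP v α β ξ k s t)
        have h2 := norm_PP_le v α β ξ hv hα hβ k s t
        have h3 := hv k s t
        calc _ ≤ 1 * 1 * (‖PP v α β ξ k s t‖ * ‖PP v α β ξ k s t‖) := by gcongr
          _ = ‖PP v α β ξ k s t‖ ^ 2 := by ring
          _ ≤ _ := h2
    _ = _ := by
        simp only [Finset.sum_const, Finset.card_univ, nsmul_eq_mul]
        ring

include hv hα hβ hc1 hc2 in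
lemma norm_DD_off (k l : K) (q : ℝ) (hq0 : 0 < q) (hq : q ^ 2 = Fintype.card Z)
    (hw : ∀ t t', ∑ s, (v k s t * conj (v l s t)) * conj (v k s t' * conj (v l s t'))
      = if t = t' then (Fintype.card Z : ℂ) else 0) :
    ‖DD v α β ξ k l‖ ≤ q * (Fintype.card Z : ℝ) ^ 3 * ∑ s', ∑ t', ‖ξ s' t'‖ ^ 2 := by
  set Ξ := ∑ s', ∑ t', ‖ξ s' t'‖ ^ 2 with hΞ
  set N : ℝ := (Fintype.card Z : ℝ) with hN
  let w : Z → Z → ℂ := fun s t => v k s t * conj (v l s t)
  have hD : DD v α β ξ k l = ∑ s', ∑ t'', ∑ s,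
      ⟪∑ t, conj (w s t) • FF v β ξ k l t s' t'', GG v α ξ k l s s' t''⟫_ℂ := by
    unfold DD
    simp_rw [inner_PP v α β ξ hc1 hc2]
    simp_rw [sum_inner, inner_smul_left, Complex.conj_conj]
    simp_rw [Finset.mul_sum]
    -- ∑ s, ∑ t, ∑ s', ∑ t''  →  ∑ s', ∑ t'', ∑ s, ∑ t
    calc _ = ∑ s, ∑ s', ∑ t, ∑ t'', (v k s t * conj (v l s t)) *
            ⟪FF v β ξ k l t s' t'', GG v α ξ k l s s' t''⟫_ℂ :=
          Finset.sum_congr rfl fun s _ => Finset.sum_comm
      _ = ∑ s', ∑ s, ∑ t, ∑ t'', (v k s t * conj (v l s t)) *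
            ⟪FF v β ξ k l t s' t'', GG v α ξ k l s s' t''⟫_ℂ := Finset.sum_comm
      _ = ∑ s', ∑ s, ∑ t'', ∑ t, (v k s t * conj (v l s t)) *
            ⟪FF v β ξ k l t s' t'', GG v α ξ k l s s' t''⟫_ℂ :=
          Finset.sum_congr rfl fun s' _ => Finset.sum_congr rfl fun s _ => Finset.sum_comm
      _ = _ := Finset.sum_congr rfl fun s' _ => Finset.sum_comm
  rw [hD]
  have horth : ∀ s' t'', ∑ s, ‖∑ t, conj (w s t) • FF v β ξ k l t s' t''‖ ^ 2
      = N * ∑ t, ‖FF v β ξ k l t s' t''‖ ^ 2 := by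
    intro s' t''
    refine sum_norm_sq_of_orth (fun s t => conj (w s t)) ?_ (fun t => FF v β ξ k l t s' t'')
    intro t t'
    simp only [Complex.conj_conj]
    exact hw t t'
  have hpt : ∀ a b : ℝ, a * b ≤ a ^ 2 / (2 * q) + q * b ^ 2 / 2 := by
    intro a b
    rw [div_add_div _ _ (by positivity) (by positivity), le_div_iff₀ (by positivity)]
    nlinarith [sq_nonneg (a - q * b)]
  calc _ ≤ ∑ s', ∑ t'', ∑ s, ‖⟪∑ t, conj (w s t) • FF v β ξ k l t s' t'',
          GG v α ξ k l s s' t''⟫_ℂ‖ := by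
        refine (norm_sum_le _ _).trans (Finset.sum_le_sum fun s' _ => ?_)
        refine (norm_sum_le _ _).trans (Finset.sum_le_sum fun t'' _ => ?_)
        exact norm_sum_le _ _
    _ ≤ ∑ s' : Z, ∑ t'' : Z, ∑ s, (‖∑ t, conj (w s t) • FF v β ξ k l t s' t''‖ ^ 2 / (2 * q)
          + q * ‖GG v α ξ k l s s' t''‖ ^ 2 / 2) := by
        refine Finset.sum_le_sum fun s' _ => Finset.sum_le_sum fun t'' _ =>
          Finset.sum_le_sum fun s _ => ?_
        exact (norm_inner_le_norm _ _).trans (hpt _ _)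
    _ = ∑ s' : Z, ∑ t'' : Z, ((N * ∑ t, ‖FF v β ξ k l t s' t''‖ ^ 2) / (2 * q)
          + q * (∑ s, ‖GG v α ξ k l s s' t''‖ ^ 2) / 2) := by
        refine Finset.sum_congr rfl fun s' _ => Finset.sum_congr rfl fun t'' _ => ?_
        rw [Finset.sum_add_distrib, ← Finset.sum_div, horth, ← Finset.sum_div, ← Finset.mul_sum]
    _ ≤ ∑ s' : Z, ∑ t'' : Z, ((N * (N * (N * ∑ t', ‖ξ s' t'‖ ^ 2))) / (2 * q)
          + q * (N * (N * ∑ s'', ‖ξ s'' t''‖ ^ 2)) / 2) := by
        refine Finset.sum_le_sum fun s' _ => Finset.sum_le_sum fun t'' _ => ?_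
        have hF : ∑ t, ‖FF v β ξ k l t s' t''‖ ^ 2 ≤ N * (N * ∑ t', ‖ξ s' t'‖ ^ 2) := by
          calc _ ≤ ∑ t : Z, (N * ∑ t', ‖ξ s' t'‖ ^ 2) :=
                Finset.sum_le_sum fun t _ => norm_FF_le v β ξ hv hβ k l t s' t''
            _ = _ := by simp [hN]
        have hG : ∑ s, ‖GG v α ξ k l s s' t''‖ ^ 2 ≤ N * (N * ∑ s'', ‖ξ s'' t''‖ ^ 2) := by
          calc _ ≤ ∑ s : Z, (N * ∑ s'', ‖ξ s'' t''‖ ^ 2) :=
                Finset.sum_le_sum fun s _ => norm_GG_le v α ξ hv hα k l s s' t''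
            _ = _ := by simp [hN]
        gcongr
    _ = _ := by
        have e1 : ∑ s' : Z, ∑ t'' : Z, ((N * (N * (N * ∑ t', ‖ξ s' t'‖ ^ 2))) / (2 * q)
          + q * (N * (N * ∑ s'', ‖ξ s'' t''‖ ^ 2)) / 2)
            = (N * N * N * N / (2 * q)) * Ξ + (q * N * N * N / 2) * Ξ := by
          simp_rw [Finset.sum_add_distrib]
          congr 1
          · simp only [Finset.sum_const, Finset.card_univ, nsmul_eq_mul]
            rw [hΞ, Finset.mul_sum]
            refine Finset.sum_congr rfl fun s' _ => ?_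
            ring
          · rw [Finset.sum_const, Finset.card_univ, nsmul_eq_mul]
            rw [hΞ, Finset.sum_comm, Finset.mul_sum, Finset.mul_sum]
            refine Finset.sum_congr rfl fun s' _ => ?_
            ring
        rw [e1]
        have hN' : N = q ^ 2 := hq.symm
        rw [hN']
        field_simp
        ring

include hv hα hβ hc1 hc2 in
theorem core (q : ℝ) (hq0 : 0 < q) (hq : q ^ 2 = Fintype.card Z)
    (hw : ∀ k l, k ≠ l → ∀ t t', ∑ s, (v k s t * conj (v l s t)) *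
      conj (v k s t' * conj (v l s t')) = if t = t' then (Fintype.card Z : ℂ) else 0) :
    ∑ s, ∑ t, ‖∑ k, conj (v k s t) • PP v α β ξ k s t‖ ^ 2
      ≤ ((Fintype.card K : ℝ) * (Fintype.card Z : ℝ) ^ 4
          + (Fintype.card K : ℝ) ^ 2 * (q * (Fintype.card Z : ℝ) ^ 3))
        * ∑ s', ∑ t', ‖ξ s' t'‖ ^ 2 := by
  set Ξ := ∑ s', ∑ t', ‖ξ s' t'‖ ^ 2 with hΞ
  have hΞ0 : 0 ≤ Ξ := by positivity
  have h1 : ((∑ s, ∑ t, ‖∑ k, conj (v k s t) • PP v α β ξ k s t‖ ^ 2 : ℝ) : ℂ)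
      = ∑ k, ∑ l, DD v α β ξ k l := by
    push_cast
    have h2 : ∀ s t, ((‖∑ k, conj (v k s t) • PP v α β ξ k s t‖ : ℂ)) ^ 2
        = ∑ k, ∑ l, (v k s t * conj (v l s t)) *
            ⟪PP v α β ξ k s t, PP v α β ξ l s t⟫_ℂ := by
      intro s t
      have := norm_sq_eq_inner (∑ k, conj (v k s t) • PP v α β ξ k s t)
      push_cast at this
      rw [this, sum_inner]
      refine Finset.sum_congr rfl fun k _ => ?_
      rw [inner_sum]
      refine Finset.sum_congr rfl fun l _ => ?_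
      rw [inner_smul_left, inner_smul_right, Complex.conj_conj]
      ring
    simp_rw [h2]
    unfold DD
    calc _ = ∑ s, ∑ k, ∑ t, ∑ l, (v k s t * conj (v l s t)) *
            ⟪PP v α β ξ k s t, PP v α β ξ l s t⟫_ℂ :=
          Finset.sum_congr rfl fun s _ => Finset.sum_comm
      _ = ∑ k, ∑ s, ∑ t, ∑ l, (v k s t * conj (v l s t)) *
            ⟪PP v α β ξ k s t, PP v α β ξ l s t⟫_ℂ := Finset.sum_comm
      _ = ∑ k, ∑ s, ∑ l, ∑ t, (v k s t * conj (v l s t)) *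
            ⟪PP v α β ξ k s t, PP v α β ξ l s t⟫_ℂ :=
          Finset.sum_congr rfl fun k _ => Finset.sum_congr rfl fun s _ => Finset.sum_comm
      _ = _ := Finset.sum_congr rfl fun k _ => Finset.sum_comm
  have h3 : ∑ s, ∑ t, ‖∑ k, conj (v k s t) • PP v α β ξ k s t‖ ^ 2
      = ‖∑ k, ∑ l, DD v α β ξ k l‖ := by
    rw [← h1]
    rw [Complex.norm_real, Real.norm_of_nonneg (by positivity)]
  rw [h3]
  calc ‖∑ k, ∑ l, DD v α β ξ k l‖ ≤ ∑ k, ∑ l, ‖DD v α β ξ k l‖ := by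
        refine (norm_sum_le _ _).trans (Finset.sum_le_sum fun k _ => ?_)
        exact norm_sum_le _ _
    _ ≤ ∑ k : K, ∑ l : K, ((if k = l then (Fintype.card Z : ℝ) ^ 4 * Ξ else 0)
          + q * (Fintype.card Z : ℝ) ^ 3 * Ξ) := by
        refine Finset.sum_le_sum fun k _ => Finset.sum_le_sum fun l _ => ?_
        by_cases hkl : k = l
        · subst hkl
          rw [if_pos rfl]
          have := norm_DD_diag v α β ξ hv hα hβ k
          have h0 : 0 ≤ q * (Fintype.card Z : ℝ) ^ 3 * Ξ := by positivity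
          linarith
        · rw [if_neg hkl, zero_add]
          exact norm_DD_off v α β ξ hv hα hβ hc1 hc2 k l q hq0 hq (hw k l hkl)
    _ = _ := by
        simp_rw [Finset.sum_add_distrib]
        simp only [Finset.sum_ite_eq, Finset.mem_univ, if_true, Finset.sum_const,
          Finset.card_univ, nsmul_eq_mul]
        ring

end

/-- the core inequality with general bounds `Ca`, `Cb` on the operators -/
theorem core' (v : K → Z → Z → ℂ) (α β : K → Z → Z → (E →L[ℂ] E)) (ξ : Z → Z → E)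
    (hv : ∀ k s t, ‖v k s t‖ ≤ 1) (Ca Cb : ℝ)
    (hα : ∀ k s t, ‖α k s t‖ ≤ Ca) (hβ : ∀ k s t, ‖β k s t‖ ≤ Cb)
    (hCa : 0 ≤ Ca) (hCb : 0 ≤ Cb)
    (hc1 : ∀ k s s' l t t' x, α k s s' (β l t t' x) = β l t t' (α k s s' x))
    (hc2 : ∀ k s s' l t t' x, (ContinuousLinearMap.adjoint (β l t t')) (α k s s' x)
      = α k s s' ((ContinuousLinearMap.adjoint (β l t t')) x))
    (q : ℝ) (hq0 : 0 < q) (hq : q ^ 2 = Fintype.card Z)
    (hw : ∀ k l, k ≠ l → ∀ t t', ∑ s, (v k s t * conj (v l s t)) *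
      conj (v k s t' * conj (v l s t')) = if t = t' then (Fintype.card Z : ℂ) else 0) :
    ∑ s, ∑ t, ‖∑ k, conj (v k s t) • PP v α β ξ k s t‖ ^ 2
      ≤ ((Fintype.card K : ℝ) * (Fintype.card Z : ℝ) ^ 4
          + (Fintype.card K : ℝ) ^ 2 * (q * (Fintype.card Z : ℝ) ^ 3)) * (Ca * Cb) ^ 2
        * ∑ s', ∑ t', ‖ξ s' t'‖ ^ 2 := by
  rcases hCa.eq_or_lt with h0 | hCa'
  · have hz : ∀ k s t, α k s t = 0 := by
      intro k s t
      have := hα k s t
      rw [← h0] at this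
      exact norm_le_zero_iff.mp this
    have hP : ∀ k s t, PP v α β ξ k s t = 0 := by
      intro k s t
      unfold PP
      simp [hz]
    simp only [hP, smul_zero, Finset.sum_const_zero, norm_zero]
    simp only [ne_eq, OfNat.ofNat_ne_zero, not_false_eq_true, zero_pow, Finset.sum_const_zero]
    positivity
  rcases hCb.eq_or_lt with h0 | hCb'
  · have hz : ∀ k s t, β k s t = 0 := by
      intro k s t
      have := hβ k s t
      rw [← h0] at this
      exact norm_le_zero_iff.mp this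
    have hP : ∀ k s t, PP v α β ξ k s t = 0 := by
      intro k s t
      unfold PP
      simp [hz]
    simp only [hP, smul_zero, Finset.sum_const_zero, norm_zero]
    simp only [ne_eq, OfNat.ofNat_ne_zero, not_false_eq_true, zero_pow, Finset.sum_const_zero]
    positivity
  let α' : K → Z → Z → (E →L[ℂ] E) := fun k s t => ((Ca⁻¹ : ℝ) : ℂ) • α k s t
  let β' : K → Z → Z → (E →L[ℂ] E) := fun k s t => ((Cb⁻¹ : ℝ) : ℂ) • β k s t
  have hadj : ∀ l t t', ContinuousLinearMap.adjoint (β' l t t')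
      = ((Cb⁻¹ : ℝ) : ℂ) • ContinuousLinearMap.adjoint (β l t t') := by
    intro l t t'
    change ContinuousLinearMap.adjoint (((Cb⁻¹ : ℝ) : ℂ) • β l t t') = _
    rw [map_smulₛₗ]
    simp
  have hmain := core v α' β' ξ hv
    (by
      intro k s t
      change ‖((Ca⁻¹ : ℝ) : ℂ) • α k s t‖ ≤ 1
      rw [norm_smul, Complex.norm_real, Real.norm_of_nonneg (by positivity)]
      have := hα k s t
      rw [inv_mul_le_iff₀ hCa']
      linarith)
    (by
      intro k s t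
      change ‖((Cb⁻¹ : ℝ) : ℂ) • β k s t‖ ≤ 1
      rw [norm_smul, Complex.norm_real, Real.norm_of_nonneg (by positivity)]
      have := hβ k s t
      rw [inv_mul_le_iff₀ hCb']
      linarith)
    (by
      intro k s s' l t t' x
      change ((Ca⁻¹ : ℝ) : ℂ) • α k s s' (((Cb⁻¹ : ℝ) : ℂ) • β l t t' x)
        = ((Cb⁻¹ : ℝ) : ℂ) • β l t t' (((Ca⁻¹ : ℝ) : ℂ) • α k s s' x)
      rw [map_smul, map_smul, hc1, smul_comm])
    (by
      intro k s s' l t t' x
      rw [hadj]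
      change ((Cb⁻¹ : ℝ) : ℂ) • (ContinuousLinearMap.adjoint (β l t t'))
          (((Ca⁻¹ : ℝ) : ℂ) • α k s s' x)
        = ((Ca⁻¹ : ℝ) : ℂ) • α k s s' (((Cb⁻¹ : ℝ) : ℂ) •
            (ContinuousLinearMap.adjoint (β l t t')) x)
      rw [map_smul, map_smul, hc2, smul_comm])
    q hq0 hq hw
  have hPP : ∀ k s t, PP v α β ξ k s t = ((Ca * Cb : ℝ) : ℂ) • PP v α' β' ξ k s t := by
    intro k s t
    unfold PP
    rw [Finset.smul_sum]
    refine Finset.sum_congr rfl fun s' _ => ?_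
    rw [Finset.smul_sum]
    refine Finset.sum_congr rfl fun t' _ => ?_
    change _ = ((Ca * Cb : ℝ) : ℂ) • v k s' t' • (((Ca⁻¹ : ℝ) : ℂ) • α k s s'
      (((Cb⁻¹ : ℝ) : ℂ) • β k t t' (ξ s' t')))
    rw [map_smul, smul_smul, smul_smul, smul_smul]
    congr 1
    push_cast
    have h1 : (Ca : ℂ) ≠ 0 := by exact_mod_cast hCa'.ne'
    have h2 : (Cb : ℂ) ≠ 0 := by exact_mod_cast hCb'.ne'
    field_simp
  have hsum : ∀ s t, ‖∑ k, conj (v k s t) • PP v α β ξ k s t‖ ^ 2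
      = (Ca * Cb) ^ 2 * ‖∑ k, conj (v k s t) • PP v α' β' ξ k s t‖ ^ 2 := by
    intro s t
    simp_rw [hPP]
    have : ∑ k, conj (v k s t) • ((Ca * Cb : ℝ) : ℂ) • PP v α' β' ξ k s t
        = ((Ca * Cb : ℝ) : ℂ) • ∑ k, conj (v k s t) • PP v α' β' ξ k s t := by
      rw [Finset.smul_sum]
      refine Finset.sum_congr rfl fun k _ => ?_
      rw [smul_comm]
    rw [this, norm_smul, Complex.norm_real, Real.norm_of_nonneg (by positivity), mul_pow]
  simp_rw [hsum, ← Finset.mul_sum]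
  refine (mul_le_mul_of_nonneg_left hmain (by positivity)).trans (le_of_eq ?_)
  ring

end Pool.Agent.H722B
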