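import Mathlib

set_option autoImplicit false
set_option linter.unusedSectionVars false
open scoped BigOperators ComplexConjugate InnerProductSpace ENNReal

namespace Pool.Agent.H722B

variable {ι : Type*} {G : ι → Type*} [∀ i, NormedAddCommGroup (G i)]
  [∀ i, InnerProductSpace ℂ (G i)]

lemma lp_hasSum_sq (f : lp G 2) : HasSum (fun i => ‖f i‖ ^ 2) (‖f‖ ^ 2) := by
  have h := lp.hasSum_norm (p := 2) (by norm_num) f
  simpa using h

lemma memlp_blk (T : ∀ i, G i →L[ℂ] G i) (C : ℝ) (hT : ∀ i, ‖T i‖ ≤ C) (x : lp G 2) :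
    Memℓp (fun i => T i (x i)) 2 := by
  rw [memℓp_gen_iff (by norm_num)]
  have h := (lp_hasSum_sq x).summable.mul_left (C ^ 2)
  refine Summable.of_nonneg_of_le (fun i => by positivity) (fun i => ?_) h
  have h1 : ‖T i (x i)‖ ≤ C * ‖x i‖ := by
    refine ((T i).le_opNorm _).trans ?_
    gcongr
    exact hT i
  have h2 : ‖T i (x i)‖ ^ 2 ≤ (C * ‖x i‖) ^ 2 := by gcongr
  simpa [mul_pow] using h2

/-- block diagonal operator on a Hilbert sum -/
noncomputable def blk (T : ∀ i, G i →L[ℂ] G i) (C : ℝ) (hT : ∀ i, ‖T i‖ ≤ C) :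
    lp G 2 →L[ℂ] lp G 2 :=
  LinearMap.mkContinuous
    { toFun := fun x => ⟨fun i => T i (x i), memlp_blk T C hT x⟩
      map_add' := fun x y => by
        ext i
        change T i ((x + y : lp G 2) i) = T i (x i) + T i (y i)
        rw [lp.coeFn_add, Pi.add_apply, map_add]
      map_smul' := fun c x => by
        ext i
        change T i ((c • x : lp G 2) i) = c • T i (x i)
        rw [lp.coeFn_smul, Pi.smul_apply, map_smul] }
    (|C|)
    (by
      intro x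
      refine abs_le_of_sq_le_sq' ?_ (by positivity) |>.2
      rw [mul_pow]
      have h1 := lp_hasSum_sq (⟨fun i => T i (x i), memlp_blk T C hT x⟩ : lp G 2)
      have h2 := (lp_hasSum_sq x).mul_left (|C| ^ 2)
      refine hasSum_le (fun i => ?_) h1 h2
      change ‖T i (x i)‖ ^ 2 ≤ |C| ^ 2 * ‖x i‖ ^ 2
      rw [← mul_pow]
      gcongr
      refine ((T i).le_opNorm _).trans ?_
      gcongr
      exact (hT i).trans (le_abs_self C))

@[simp] lemma blk_apply (T : ∀ i, G i →L[ℂ] G i) (C : ℝ) (hT : ∀ i, ‖T i‖ ≤ C) (x : lp G 2)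
    (i : ι) : (blk T C hT x) i = T i (x i) := rfl

/-- blockwise quadratic inequalities sum up -/
lemma sum_sq_le_of_blocks {I1 I2 : Type*} [Fintype I1] [Fintype I2] (y : I1 → lp G 2)
    (x : I2 → lp G 2) (C : ℝ)
    (h : ∀ n, ∑ p, ‖y p n‖ ^ 2 ≤ C * ∑ q, ‖x q n‖ ^ 2) :
    ∑ p, ‖y p‖ ^ 2 ≤ C * ∑ q, ‖x q‖ ^ 2 := by
  have h1 : HasSum (fun n => ∑ p, ‖y p n‖ ^ 2) (∑ p, ‖y p‖ ^ 2) :=
    hasSum_sum fun p _ => lp_hasSum_sq (y p)
  have h2 : HasSum (fun n => C * ∑ q, ‖x q n‖ ^ 2) (C * ∑ q, ‖x q‖ ^ 2) :=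
    (hasSum_sum fun q _ => lp_hasSum_sq (x q)).mul_left C
  exact hasSum_le h h1 h2

end Pool.Agent.H722B
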