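import Pool.Agent.H722B.Setup

set_option autoImplicit false
set_option linter.unusedSectionVars false
open scoped BigOperators ComplexConjugate InnerProductSpace ENNReal CStarMatrix

namespace Pool.Agent.H722B

noncomputable section

abbrev II (n : ℕ) : Type := ZZ n × ZZ n × ZZ n

def w1 (n : ℕ) (i j : II n) : ℂ :=
  if i.1 = 0 ∧ i.2.2 = j.2.2 then ph (Pn n) j.1 i.2.1 i.2.2 * conj (ph (Pn n) j.1 j.2.1 i.2.2)
  else 0

def idx1 (n : ℕ) (i j : II n) : JJ := ⟨n, j.1, i.2.1, j.2.1⟩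

def w2 (n : ℕ) (i j : II n) : ℂ :=
  if j.1 = 0 ∧ i.2.1 = j.2.1 then ph (Pn n) i.1 i.2.1 i.2.2 * conj (ph (Pn n) i.1 i.2.1 j.2.2)
  else 0

def idx2 (n : ℕ) (i j : II n) : JJ := ⟨n, i.1, i.2.2, j.2.2⟩

lemma unimod (n : ℕ) (k s t k' s' t' : ZZ n) :
    (ph (Pn n) k s t * conj (ph (Pn n) k' s' t')) *
      conj (ph (Pn n) k s t * conj (ph (Pn n) k' s' t')) = 1 := by
  rw [map_mul, Complex.conj_conj]
  calc _ = (ph (Pn n) k s t * conj (ph (Pn n) k s t)) *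
        (ph (Pn n) k' s' t' * conj (ph (Pn n) k' s' t')) := by ring
    _ = 1 := by rw [ph_mul_conj, ph_mul_conj, one_mul]

lemma w1_or (n : ℕ) (i j : II n) : w1 n i j = 0 ∨ w1 n i j * conj (w1 n i j) = 1 := by
  unfold w1
  split_ifs
  · right; exact unimod n _ _ _ _ _ _
  · left; rfl

lemma w2_or (n : ℕ) (i j : II n) : w2 n i j = 0 ∨ w2 n i j * conj (w2 n i j) = 1 := by
  unfold w2
  split_ifs
  · right; exact unimod n _ _ _ _ _ _
  · left; rfl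

lemma w1_ne {n : ℕ} {i j : II n} (h : w1 n i j ≠ 0) : i.1 = 0 ∧ i.2.2 = j.2.2 := by
  unfold w1 at h
  by_contra hc
  exact h (if_neg hc)

lemma w2_ne {n : ℕ} {i j : II n} (h : w2 n i j ≠ 0) : j.1 = 0 ∧ i.2.1 = j.2.1 := by
  unfold w2 at h
  by_contra hc
  exact h (if_neg hc)

lemma sig_eq {n : ℕ} {a b : II n} (h : (⟨n, a⟩ : JJ) = ⟨n, b⟩) : a = b := by
  exact eq_of_heq (Sigma.mk.inj h).2

/-- the multiplicative complete boundedness inequality, as in the frozen statement -/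
def Mcb (C : ℝ) (ψ : AA →ₗ[ℂ] AA →ₗ[ℂ] (HH →L[ℂ] HH)) : Prop :=
  ∀ (n : ℕ) (a : CStarMatrix (Fin n) (Fin n) AA)
            (b : CStarMatrix (Fin n) (Fin n) AA) (x : Fin n → HH),
            ∑ i : Fin n, ‖∑ j : Fin n, ∑ k : Fin n, ψ (a i k) (b k j) (x j)‖ ^ 2
              ≤ (C * ‖a‖ * ‖b‖) ^ 2 * ∑ j : Fin n, ‖x j‖ ^ 2

lemma test_ineq (C : ℝ) (ψ : AA →ₗ[ℂ] AA →ₗ[ℂ] (HH →L[ℂ] HH)) (h : Mcb C ψ) (n : ℕ)
    (x : II n → HH) :
    ∑ i, ‖∑ j, ∑ k, (w1 n i k * w2 n k j) • ψ (ee (idx1 n i k)) (ee (idx2 n k j)) (x j)‖ ^ 2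
      ≤ C ^ 2 * ∑ j, ‖x j‖ ^ 2 := by
  classical
  let e : II n ≃ Fin (Fintype.card (II n)) := Fintype.equivFin _
  let α : CStarMatrix (Fin (Fintype.card (II n))) (Fin (Fintype.card (II n))) AA :=
    patM ee (fun i j => w1 n (e.symm i) (e.symm j)) (fun i j => idx1 n (e.symm i) (e.symm j))
  let β : CStarMatrix (Fin (Fintype.card (II n))) (Fin (Fintype.card (II n))) AA :=
    patM ee (fun i j => w2 n (e.symm i) (e.symm j)) (fun i j => idx2 n (e.symm i) (e.symm j))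
  have hα : ‖α‖ ≤ 1 := by
    refine norm_pattern ee ?_ ee_star _ (fun i j => w1_or n _ _) _ ?_ ?_
    · intro a b
      rw [ee_mul]
    · intro i j l hij h1 h2 hidx
      have a1 := w1_ne h1
      have a2 := w1_ne h2
      have a3 := sig_eq hidx
      have a4 := congrArg (fun z => z.2.1) a3
      simp only at a4
      exact hij (e.symm.injective (Prod.ext (a1.1.trans a2.1.symm)
        (Prod.ext a4 (a1.2.trans a2.2.symm))))
    · intro i l l' h1 h2 hidx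
      have a1 := w1_ne h1
      have a2 := w1_ne h2
      have a3 := sig_eq hidx
      have a4 := congrArg (fun z => z.1) a3
      have a5 := congrArg (fun z => z.2.2) a3
      simp only at a4 a5
      exact e.symm.injective (Prod.ext a4 (Prod.ext a5 (a1.2.symm.trans a2.2)))
  have hβ : ‖β‖ ≤ 1 := by
    refine norm_pattern ee ?_ ee_star _ (fun i j => w2_or n _ _) _ ?_ ?_
    · intro a b
      rw [ee_mul]
    · intro i j l hij h1 h2 hidx
      have a1 := w2_ne h1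
      have a2 := w2_ne h2
      have a3 := sig_eq hidx
      have a4 := congrArg (fun z => z.1) a3
      have a5 := congrArg (fun z => z.2.1) a3
      simp only at a4 a5
      exact hij (e.symm.injective (Prod.ext a4 (Prod.ext (a1.2.trans a2.2.symm) a5)))
    · intro i l l' h1 h2 hidx
      have a1 := w2_ne h1
      have a2 := w2_ne h2
      have a3 := sig_eq hidx
      have a5 := congrArg (fun z => z.2.2) a3
      simp only at a5
      exact e.symm.injective (Prod.ext (a1.1.trans a2.1.symm)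
        (Prod.ext (a1.2.symm.trans a2.2) a5))
  have hm := h _ α β (fun j => x (e.symm j))
  have e1 : ∑ j, ‖x (e.symm j)‖ ^ 2 = ∑ j, ‖x j‖ ^ 2 :=
    Equiv.sum_comp e.symm (fun j => ‖x j‖ ^ 2)
  have e2 : ∑ i, ‖∑ j, ∑ k, ψ (α i k) (β k j) (x (e.symm j))‖ ^ 2
      = ∑ i, ‖∑ j, ∑ k, (w1 n i k * w2 n k j) •
          ψ (ee (idx1 n i k)) (ee (idx2 n k j)) (x j)‖ ^ 2 := by
    rw [← Equiv.sum_comp e.symm]
    refine Finset.sum_congr rfl fun i _ => ?_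
    congr 2
    rw [← Equiv.sum_comp e.symm]
    refine Finset.sum_congr rfl fun j _ => ?_
    rw [← Equiv.sum_comp e.symm]
    refine Finset.sum_congr rfl fun k _ => ?_
    change ψ (w1 n (e.symm i) (e.symm k) • ee (idx1 n (e.symm i) (e.symm k)))
      (w2 n (e.symm k) (e.symm j) • ee (idx2 n (e.symm k) (e.symm j))) (x (e.symm j)) = _
    rw [map_smul, map_smul, LinearMap.smul_apply, smul_smul, mul_comm]
    rfl
  rw [e1, e2] at hm
  refine hm.trans ?_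
  have h0 : 0 ≤ ∑ j, ‖x j‖ ^ 2 := by positivity
  refine mul_le_mul_of_nonneg_right ?_ h0
  have h3 : ‖α‖ * ‖β‖ ≤ 1 := by
    calc ‖α‖ * ‖β‖ ≤ 1 * 1 := by gcongr
      _ = 1 := one_mul 1
  have h4 : 0 ≤ ‖α‖ * ‖β‖ := by positivity
  calc (C * ‖α‖ * ‖β‖) ^ 2 = C ^ 2 * (‖α‖ * ‖β‖) ^ 2 := by ring
    _ ≤ C ^ 2 * 1 ^ 2 := by gcongr
    _ = C ^ 2 := by ring

def Phi (n : ℕ) (ψ : AA →ₗ[ℂ] AA →ₗ[ℂ] (HH →L[ℂ] HH)) (X : ZZ n → ZZ n → HH) (s t : ZZ n) : HH :=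
  ∑ s', ∑ t', ∑ κ, (ph (Pn n) κ s t * conj (ph (Pn n) κ s' t')) •
    ψ (ee ⟨n, κ, s, s'⟩) (ee ⟨n, κ, t, t'⟩) (X s' t')

lemma Phi_ineq (C : ℝ) (ψ : AA →ₗ[ℂ] AA →ₗ[ℂ] (HH →L[ℂ] HH)) (h : Mcb C ψ) (n : ℕ)
    (X : ZZ n → ZZ n → HH) :
    ∑ s, ∑ t, ‖Phi n ψ X s t‖ ^ 2 ≤ C ^ 2 * ∑ s, ∑ t, ‖X s t‖ ^ 2 := by
  let x : II n → HH := fun j => if j.1 = 0 then X j.2.1 j.2.2 else 0
  have h1 := test_ineq C ψ h n x
  have e1 : ∑ j, ‖x j‖ ^ 2 = ∑ s, ∑ t, ‖X s t‖ ^ 2 := by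
    rw [Fintype.sum_prod_type, Finset.sum_eq_single 0]
    · rw [Fintype.sum_prod_type]
      simp [x]
    · intro b _ hb
      simp [x, hb]
    · simp
  rw [e1] at h1
  refine le_trans ?_ h1
  rw [Fintype.sum_prod_type]
  refine le_trans ?_ (Finset.single_le_sum (f := fun y : ZZ n => ∑ z : ZZ n × ZZ n,
    ‖∑ j, ∑ k, (w1 n (y, z) k * w2 n k j) •
      ψ (ee (idx1 n (y, z) k)) (ee (idx2 n k j)) (x j)‖ ^ 2)
    (fun y _ => by positivity) (Finset.mem_univ 0))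
  rw [Fintype.sum_prod_type]
  refine le_of_eq ?_
  refine Finset.sum_congr rfl fun s _ => Finset.sum_congr rfl fun t _ => ?_
  congr 2
  unfold Phi
  symm
  rw [Fintype.sum_prod_type, Finset.sum_eq_single 0]
  · rw [Fintype.sum_prod_type]
    refine Finset.sum_congr rfl fun s' _ => Finset.sum_congr rfl fun t' _ => ?_
    rw [Fintype.sum_prod_type]
    refine Finset.sum_congr rfl fun κ _ => ?_
    rw [Fintype.sum_prod_type, Finset.sum_eq_single s', Finset.sum_eq_single t]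
    · simp only [x, w1, w2, idx1, idx2, if_true, and_self]
      congr 1
      calc _ = (ph (Pn n) κ s t * conj (ph (Pn n) κ s' t')) *
            (ph (Pn n) κ s' t * conj (ph (Pn n) κ s' t)) := by ring
        _ = (ph (Pn n) κ s t * conj (ph (Pn n) κ s' t')) * 1 := by rw [ph_mul_conj]
        _ = _ := by ring
    · intro b _ hb
      have : w1 n (0, s, t) (κ, s', b) = 0 := by
        unfold w1
        rw [if_neg]
        rintro ⟨_, h2⟩
        exact hb h2.symm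
      rw [this, zero_mul, zero_smul]
    · simp
    · intro b _ hb
      refine Finset.sum_eq_zero fun c _ => ?_
      have : w2 n (κ, b, c) (0, s', t') = 0 := by
        unfold w2
        rw [if_neg]
        rintro ⟨_, h2⟩
        exact hb h2
      rw [this, mul_zero, zero_smul]
    · simp
  · intro b _ hb
    refine Finset.sum_eq_zero fun c _ => Finset.sum_eq_zero fun k _ => ?_
    have : x (b, c) = 0 := by
      simp only [x]
      rw [if_neg hb]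
    rw [this, map_zero, smul_zero]
  · simp

open Classical in
def emb (n : ℕ) (s t : ZZ n) : HH := lp.single 2 n (EuclideanSpace.single (s, t) (1 : ℂ))

lemma emb_norm (n : ℕ) (s t : ZZ n) : ‖emb n s t‖ = 1 := by
  unfold emb
  rw [lp.norm_single (by norm_num)]
  simp

lemma phi_emb (n : ℕ) (κ s s' t t' : ZZ n) :
    (phi (ee ⟨n, κ, s, s'⟩) (ee ⟨n, κ, t, t'⟩) (emb n s' t')) n (s, t)
      = ((cc (Pn n) : ℝ) : ℂ) * (conj (ph (Pn n) κ s t) * ph (Pn n) κ s' t') := by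
  classical
  rw [phi_apply]
  have h1 : (emb n s' t') n = EuclideanSpace.single (s', t') (1 : ℂ) := by
    unfold emb
    rw [lp.single_apply_self]
  rw [h1]
  unfold TT bOp
  rw [toEuclideanCLM_apply', Finset.sum_eq_single (s', t')]
  · unfold bMat
    simp only [EuclideanSpace.single_apply, if_true, mul_one]
    congr 1
    rw [Finset.sum_eq_single κ]
    · unfold ev
      rw [ee_apply, ee_apply, if_pos rfl, if_pos rfl]
      ring
    · intro b _ hb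
      unfold ev
      rw [ee_apply, if_neg, zero_mul, mul_zero]
      intro h2
      exact hb (congrArg (fun z => z.1) (sig_eq h2))
    · simp
  · intro b _ hb
    rw [EuclideanSpace.single_apply, if_neg hb, mul_zero]
  · simp

lemma comb {Z : Type*} [Fintype Z] (A B : Z → Z → ℝ) (c D1 D2 : ℝ) (hc : 0 ≤ c)
    (h : ∀ s t, c ≤ A s t + B t s)
    (hA : ∑ s, ∑ t, A s t ^ 2 ≤ D1) (hB : ∑ s, ∑ t, B s t ^ 2 ≤ D2) :
    ∑ _s : Z, ∑ _t : Z, c ^ 2 ≤ 2 * D1 + 2 * D2 := by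
  have e1 : ∑ s, ∑ t, B t s ^ 2 = ∑ s, ∑ t, B s t ^ 2 := Finset.sum_comm
  calc ∑ _s : Z, ∑ _t : Z, c ^ 2 ≤ ∑ s, ∑ t, (2 * A s t ^ 2 + 2 * B t s ^ 2) := by
        refine Finset.sum_le_sum fun s _ => Finset.sum_le_sum fun t _ => ?_
        have h1 := h s t
        have h2 : c ^ 2 ≤ (A s t + B t s) ^ 2 := by gcongr
        nlinarith [sq_nonneg (A s t - B t s)]
    _ = 2 * (∑ s, ∑ t, A s t ^ 2) + 2 * (∑ s, ∑ t, B t s ^ 2) := by
        simp_rw [Finset.sum_add_distrib, ← Finset.mul_sum]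
    _ ≤ 2 * D1 + 2 * D2 := by
        rw [e1]
        gcongr

lemma key_lower (n : ℕ) (C1 C2 : ℝ) (ψ1 ψ2 : AA →ₗ[ℂ] AA →ₗ[ℂ] (HH →L[ℂ] HH))
    (h1 : Mcb C1 ψ1) (h2 : Mcb C2 ψ2) (hsum : ∀ a b, phi a b = ψ1 a b + ψ2 b a) :
    √(Pn n : ℝ) / 2 ≤ 2 * (C1 ^ 2 + C2 ^ 2) := by
  have hp := p_pos (Pn n)
  have i1 := Phi_ineq C1 ψ1 h1 n (fun s t => emb n s t)
  have i2 := Phi_ineq C2 ψ2 h2 n (fun s t => emb n t s)
  simp only [emb_norm, one_pow, Finset.sum_const, Finset.card_univ, ZMod.card, nsmul_eq_mul,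
    mul_one] at i1 i2
  have hcomb : ∀ s t, (cc (Pn n)) * (Pn n : ℝ) ^ 3
      ≤ ‖Phi n ψ1 (fun s t => emb n s t) s t + Phi n ψ2 (fun s t => emb n t s) t s‖ := by
    intro s t
    have e1 : Phi n ψ1 (fun s t => emb n s t) s t + Phi n ψ2 (fun s t => emb n t s) t s
        = ∑ s', ∑ t', ∑ κ, (ph (Pn n) κ s t * conj (ph (Pn n) κ s' t')) •
          phi (ee ⟨n, κ, s, s'⟩) (ee ⟨n, κ, t, t'⟩) (emb n s' t') := by
      have e2 : Phi n ψ2 (fun s t => emb n t s) t s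
          = ∑ s', ∑ t', ∑ κ, (ph (Pn n) κ s t * conj (ph (Pn n) κ s' t')) •
            ψ2 (ee ⟨n, κ, t, t'⟩) (ee ⟨n, κ, s, s'⟩) (emb n s' t') := by
        unfold Phi
        rw [Finset.sum_comm]
        refine Finset.sum_congr rfl fun s' _ => Finset.sum_congr rfl fun t' _ =>
          Finset.sum_congr rfl fun κ _ => ?_
        rw [ph_symm (Pn n) κ t s, ph_symm (Pn n) κ t' s']
      rw [e2]
      unfold Phi
      rw [← Finset.sum_add_distrib]
      refine Finset.sum_congr rfl fun s' _ => ?_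
      rw [← Finset.sum_add_distrib]
      refine Finset.sum_congr rfl fun t' _ => ?_
      rw [← Finset.sum_add_distrib]
      refine Finset.sum_congr rfl fun κ _ => ?_
      rw [hsum, ← smul_add]
      rfl
    rw [e1]
    set Y : HH := ∑ s', ∑ t', ∑ κ, (ph (Pn n) κ s t * conj (ph (Pn n) κ s' t')) •
          phi (ee ⟨n, κ, s, s'⟩) (ee ⟨n, κ, t, t'⟩) (emb n s' t') with hY
    have hYc : Y n (s, t) = ((cc (Pn n) * (Pn n : ℝ) ^ 3 : ℝ) : ℂ) := by
      have e3 : Y n (s, t) = ∑ s', ∑ t', ∑ κ, (ph (Pn n) κ s t * conj (ph (Pn n) κ s' t')) *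
          (phi (ee ⟨n, κ, s, s'⟩) (ee ⟨n, κ, t, t'⟩) (emb n s' t')) n (s, t) := by
        rw [hY]
        simp only [lp.coeFn_sum, Finset.sum_apply, WithLp.ofLp_sum]
        rfl
      rw [e3]
      have e4 : ∀ s' t' κ, (ph (Pn n) κ s t * conj (ph (Pn n) κ s' t')) *
          (phi (ee ⟨n, κ, s, s'⟩) (ee ⟨n, κ, t, t'⟩) (emb n s' t')) n (s, t)
          = ((cc (Pn n) : ℝ) : ℂ) := by
        intro s' t' κ
        rw [phi_emb]
        calc _ = ((cc (Pn n) : ℝ) : ℂ) * ((ph (Pn n) κ s t * conj (ph (Pn n) κ s t)) *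
              (ph (Pn n) κ s' t' * conj (ph (Pn n) κ s' t'))) := by ring
          _ = _ := by rw [ph_mul_conj, ph_mul_conj]; ring
      simp_rw [e4]
      simp only [Finset.sum_const, Finset.card_univ, ZMod.card, nsmul_eq_mul]
      push_cast
      ring
    have h3 : ‖Y n (s, t)‖ ≤ ‖Y‖ :=
      (PiLp.norm_apply_le _ _).trans (lp.norm_apply_le_norm (by norm_num) Y n)
    rw [hYc, Complex.norm_real] at h3
    exact (le_abs_self _).trans h3
  have hcc : 0 ≤ cc (Pn n) := by unfold cc; positivity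
  have hbig : ∑ s : ZZ n, ∑ t : ZZ n, (cc (Pn n) * (Pn n : ℝ) ^ 3) ^ 2
      ≤ 2 * (C1 ^ 2 * ((Pn n : ℝ) * (Pn n : ℝ))) + 2 * (C2 ^ 2 * ((Pn n : ℝ) * (Pn n : ℝ))) :=
    comb (fun s t => ‖Phi n ψ1 (fun s t => emb n s t) s t‖)
      (fun s t => ‖Phi n ψ2 (fun s t => emb n t s) s t‖) _ _ _ (by positivity)
      (fun s t => (hcomb s t).trans (norm_add_le _ _)) i1 i2
  simp only [Finset.sum_const, Finset.card_univ, ZMod.card, nsmul_eq_mul] at hbig
  have hlow := cc_lower (Pn n)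
  have hpp : (0 : ℝ) < (Pn n : ℝ) * (Pn n : ℝ) := by positivity
  rw [← hlow]
  have h7 : (Pn n : ℝ) * (Pn n : ℝ) * ((cc (Pn n)) ^ 2 * (Pn n : ℝ) ^ 6)
      ≤ (Pn n : ℝ) * (Pn n : ℝ) * (2 * (C1 ^ 2 + C2 ^ 2)) := by
    calc _ = (Pn n : ℝ) * ((Pn n : ℝ) * (cc (Pn n) * (Pn n : ℝ) ^ 3) ^ 2) := by ring
      _ ≤ _ := hbig
      _ = _ := by ring
  exact le_of_mul_le_mul_left h7 hpp

theorem no_decomp (C1 C2 : ℝ) (ψ1 ψ2 : AA →ₗ[ℂ] AA →ₗ[ℂ] (HH →L[ℂ] HH))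
    (h1 : Mcb C1 ψ1) (h2 : Mcb C2 ψ2) : ¬ ∀ a b, phi a b = ψ1 a b + ψ2 b a := by
  intro hsum
  obtain ⟨n, hn⟩ := exists_nat_gt ((4 * (C1 ^ 2 + C2 ^ 2)) ^ 2)
  have h3 := key_lower n C1 C2 ψ1 ψ2 h1 h2 hsum
  have h4 : (n : ℝ) ≤ Pn n := by exact_mod_cast le_Pn n
  have h5 : 4 * (C1 ^ 2 + C2 ^ 2) < √(Pn n : ℝ) := by
    apply Real.lt_sqrt_of_sq_lt
    linarith
  linarith

end

end Pool.Agent.H722B
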