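import Mathlib

set_option autoImplicit false
set_option linter.unusedSectionVars false
open scoped BigOperators ComplexConjugate InnerProductSpace ENNReal

namespace Pool.Agent.H722B

section phase
variable (p : ℕ) [Fact p.Prime]

instance instNZ : NeZero p := ⟨(Fact.out : p.Prime).ne_zero⟩

noncomputable def ph (k s t : ZMod p) : ℂ := ZMod.stdAddChar (k * s * t)

lemma ph_norm (k s t : ZMod p) : ‖ph p k s t‖ = 1 := by
  unfold ph
  rw [ZMod.stdAddChar_apply]
  exact Circle.norm_coe _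

lemma ph_symm (k s t : ZMod p) : ph p k s t = ph p k t s := by
  unfold ph
  congr 1
  ring

lemma ph_mul_conj (k s t : ZMod p) : ph p k s t * conj (ph p k s t) = 1 := by
  rw [Complex.mul_conj, Complex.normSq_eq_norm_sq, ph_norm]
  simp

lemma ph_orth (k l : ZMod p) (hkl : k ≠ l) (t t' : ZMod p) :
    ∑ s, (ph p k s t * conj (ph p l s t)) * conj (ph p k s t' * conj (ph p l s t'))
      = if t = t' then (Fintype.card (ZMod p) : ℂ) else 0 := by
  have h1 : ∀ s, (ph p k s t * conj (ph p l s t)) * conj (ph p k s t' * conj (ph p l s t'))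
      = ZMod.stdAddChar (s * ((k - l) * (t - t'))) := by
    intro s
    unfold ph
    rw [map_mul (starRingEnd ℂ), Complex.conj_conj, ← AddChar.map_neg_eq_conj, ← AddChar.map_neg_eq_conj,
      ← AddChar.map_add_eq_mul, ← AddChar.map_add_eq_mul, ← AddChar.map_add_eq_mul]
    congr 1
    ring
  simp_rw [h1]
  rw [AddChar.sum_mulShift _ (ZMod.isPrimitive_stdAddChar p)]
  by_cases h : t = t'
  · simp [h]
  · rw [if_neg, if_neg h]
    · simp
    · exact mul_ne_zero (sub_ne_zero.mpr hkl) (sub_ne_zero.mpr h)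

/-- normalising constant -/
noncomputable def cc : ℝ := √(1 / (2 * (p : ℝ) ^ 5 * √p))

lemma cc_sq : (cc p) ^ 2 = 1 / (2 * (p : ℝ) ^ 5 * √p) := by
  unfold cc
  rw [Real.sq_sqrt (by positivity)]

lemma p_pos : (0 : ℝ) < p := by exact_mod_cast (Fact.out : p.Prime).pos

lemma one_le_sqrt_p : (1 : ℝ) ≤ √p := by
  rw [Real.one_le_sqrt]
  exact_mod_cast (Fact.out : p.Prime).one_lt.le

lemma cc_bound : ‖((cc p : ℝ) : ℂ)‖ ^ 2 * ((Fintype.card (ZMod p) : ℝ) *
      (Fintype.card (ZMod p) : ℝ) ^ 4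
          + (Fintype.card (ZMod p) : ℝ) ^ 2 * (√p * (Fintype.card (ZMod p) : ℝ) ^ 3)) ≤ 1 := by
  rw [Complex.norm_real, Real.norm_eq_abs, sq_abs, cc_sq, ZMod.card]
  have hp := p_pos p
  have h1 := one_le_sqrt_p p
  rw [div_mul_eq_mul_div, one_mul, div_le_one (by positivity)]
  have h5 : (0 : ℝ) < (p : ℝ) ^ 5 := by positivity
  nlinarith

lemma cc_lower : (cc p) ^ 2 * (p : ℝ) ^ 6 = √p / 2 := by
  rw [cc_sq]
  have hp := p_pos p
  have h1 := one_le_sqrt_p p
  have h2 : √(p:ℝ) * √p = p := Real.mul_self_sqrt hp.le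
  rw [div_mul_eq_mul_div, div_eq_div_iff (by positivity) (by positivity)]
  calc 1 * (p : ℝ) ^ 6 * 2 = 2 * (p : ℝ) ^ 5 * p := by ring
    _ = 2 * (p : ℝ) ^ 5 * (√p * √p) := by rw [h2]
    _ = √p * (2 * (p : ℝ) ^ 5 * √p) := by ring

end phase

end Pool.Agent.H722B
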