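import Pool.Agent.H722B.Blocks
import Pool.Agent.H722B.Direct
import Pool.Agent.H722B.CStar
import Pool.Agent.H722B.Phase

set_option autoImplicit false
set_option linter.unusedSectionVars false
open scoped BigOperators ComplexConjugate InnerProductSpace ENNReal CStarMatrix

namespace Pool.Agent.H722B

noncomputable section

lemma exP (n : ℕ) : ∃ p, n ≤ p ∧ p.Prime := Nat.exists_infinite_primes n
def Pn (n : ℕ) : ℕ := (exP n).choose
lemma le_Pn (n : ℕ) : n ≤ Pn n := (exP n).choose_spec.1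
instance instFactPn (n : ℕ) : Fact (Pn n).Prime := ⟨(exP n).choose_spec.2⟩

abbrev ZZ (n : ℕ) : Type := ZMod (Pn n)
abbrev JJ : Type := Σ n : ℕ, ZZ n × ZZ n × ZZ n
abbrev AA : Type := lp (fun _ : JJ => ℂ) ∞

instance instCA : NonUnitalCStarAlgebra AA := inferInstance
instance instPO : PartialOrder AA := CStarAlgebra.spectralOrder AA
instance instSO : StarOrderedRing AA := CStarAlgebra.spectralOrderedRing AA

open Classical in
/-- point indicator -/
def ee (ω : JJ) : AA := lp.single ∞ ω (1 : ℂ)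

open Classical in
lemma ee_apply (ω j : JJ) : ee ω j = if j = ω then 1 else 0 := by
  unfold ee
  rw [lp.single_apply]
  by_cases h : j = ω
  · subst h; simp
  · simp [h]

open Classical in
lemma ee_mul (ω ω' : JJ) : ee ω * ee ω' = if ω = ω' then ee ω else 0 := by
  ext j
  rw [lp.infty_coeFn_mul, Pi.mul_apply, ee_apply, ee_apply]
  by_cases h : ω = ω'
  · subst h
    rw [if_pos rfl, ee_apply]
    split_ifs <;> simp
  · rw [if_neg h]
    have h0 : ((0 : AA) : JJ → ℂ) j = 0 := rfl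
    rw [h0]
    by_cases h1 : j = ω
    · rw [if_neg (fun h2 => h (h1.symm.trans h2)), mul_zero]
    · rw [if_neg h1, zero_mul]

lemma ee_star (ω : JJ) : star (ee ω) = ee ω := by
  ext j
  rw [lp.coeFn_star, Pi.star_apply, ee_apply]
  split_ifs <;> simp

def mp (ω : JJ) : MinProj AA where
  e := ee ω
  χ := fun a => a ω
  mul_self := by rw [ee_mul, if_pos rfl]
  star_self := ee_star ω
  norm_e := by
    classical
    unfold ee
    rw [lp.norm_single (by simp)]
    simp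
  mul_eq := by
    intro a
    ext j
    rw [lp.infty_coeFn_mul, Pi.mul_apply, ee_apply, lp.coeFn_smul, Pi.smul_apply, ee_apply]
    by_cases h : j = ω
    · subst h; simp
    · simp [h]
  χ_star := by
    intro a
    rw [lp.coeFn_star, Pi.star_apply]
    rfl

abbrev EE (n : ℕ) : Type := EuclideanSpace ℂ (ZZ n × ZZ n)
abbrev HH : Type := lp EE 2

def ev (n : ℕ) (a : AA) : ZZ n → ZZ n → ZZ n → ℂ := fun k s t => a ⟨n, k, s, t⟩

def TT (n : ℕ) (a b : AA) : EE n →L[ℂ] EE n :=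
  bOp ((cc (Pn n) : ℝ) : ℂ) (ph (Pn n)) (ev n a) (ev n b)

lemma qfact (n : ℕ) : √(Pn n : ℝ) ^ 2 = Fintype.card (ZZ n) := by
  rw [Real.sq_sqrt (by positivity), ZMod.card]

lemma qpos (n : ℕ) : 0 < √(Pn n : ℝ) := lt_of_lt_of_le one_pos (one_le_sqrt_p (Pn n))

/-- block version of the joint complete boundedness -/
lemma TT_ineq (n : ℕ) {I1 I2 : Type*} [Fintype I1] [Fintype I2] [DecidableEq I1] [DecidableEq I2]
    (a : I1 → I1 → AA) (b : I2 → I2 → AA) (Ca Cb : ℝ) (hCa : 0 ≤ Ca) (hCb : 0 ≤ Cb)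
    (ha : ∀ ω : JJ, ∀ x : I1 → ℂ, ∑ i, ‖∑ j, a i j ω * x j‖ ^ 2 ≤ Ca ^ 2 * ∑ j, ‖x j‖ ^ 2)
    (hb : ∀ ω : JJ, ∀ x : I2 → ℂ, ∑ i, ‖∑ j, b i j ω * x j‖ ^ 2 ≤ Cb ^ 2 * ∑ j, ‖x j‖ ^ 2)
    (x : I1 × I2 → EE n) :
    ∑ p : I1 × I2, ‖∑ q : I1 × I2, TT n (a p.1 q.1) (b p.2 q.2) (x q)‖ ^ 2
      ≤ (Ca * Cb) ^ 2 * ∑ q, ‖x q‖ ^ 2 :=
  blk_ineq ((cc (Pn n) : ℝ) : ℂ) (ph (Pn n)) (fun k s t => (ph_norm (Pn n) k s t).le)
    √(Pn n : ℝ) (qpos n) (qfact n) (fun k l hkl t t' => ph_orth (Pn n) k l hkl t t')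
    (cc_bound (Pn n))
    (fun k s t i j => a i j ⟨n, k, s, t⟩) (fun k s t i j => b i j ⟨n, k, s, t⟩)
    Ca Cb hCa hCb (fun k s t x => ha ⟨n, k, s, t⟩ x) (fun k s t x => hb ⟨n, k, s, t⟩ x) x

lemma TT_norm (n : ℕ) (a b : AA) : ‖TT n a b‖ ≤ ‖a‖ * ‖b‖ := by
  refine ContinuousLinearMap.opNorm_le_bound _ (by positivity) fun x => ?_
  have key : ∀ c : AA, ∀ ω : JJ, ∀ x : Unit → ℂ,
      ∑ _i : Unit, ‖∑ j : Unit, c ω * x j‖ ^ 2 ≤ ‖c‖ ^ 2 * ∑ j, ‖x j‖ ^ 2 := by
    intro c ω x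
    simp only [Finset.univ_unique, Finset.sum_singleton, norm_mul, mul_pow]
    gcongr
    exact lp.norm_apply_le_norm (by simp) c ω
  have h := TT_ineq n (I1 := Unit) (I2 := Unit) (fun _ _ => a) (fun _ _ => b) ‖a‖ ‖b‖
    (norm_nonneg _) (norm_nonneg _) (key a) (key b) (fun _ => x)
  simp only [Finset.sum_const, Finset.card_univ, Fintype.card_prod, Fintype.card_unit, mul_one,
    one_smul] at h
  refine abs_le_of_sq_le_sq' ?_ (by positivity) |>.2
  rw [mul_pow]
  exact h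

lemma bMat_add_left {K Z : Type*} [Fintype K] (c : ℂ) (v f f' g : K → Z → Z → ℂ) :
    bMat c v (fun k s t => f k s t + f' k s t) g = bMat c v f g + bMat c v f' g := by
  ext i j
  simp only [bMat, Matrix.add_apply]
  rw [← mul_add, ← Finset.sum_add_distrib]
  congr 1
  refine Finset.sum_congr rfl fun k _ => ?_
  ring

lemma bMat_add_right {K Z : Type*} [Fintype K] (c : ℂ) (v f g g' : K → Z → Z → ℂ) :
    bMat c v f (fun k s t => g k s t + g' k s t) = bMat c v f g + bMat c v f g' := by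
  ext i j
  simp only [bMat, Matrix.add_apply]
  rw [← mul_add, ← Finset.sum_add_distrib]
  congr 1
  refine Finset.sum_congr rfl fun k _ => ?_
  ring

lemma bMat_smul_left {K Z : Type*} [Fintype K] (c r : ℂ) (v f g : K → Z → Z → ℂ) :
    bMat c v (fun k s t => r * f k s t) g = r • bMat c v f g := by
  ext i j
  simp only [bMat, Matrix.smul_apply, smul_eq_mul]
  rw [Finset.mul_sum, Finset.mul_sum, Finset.mul_sum]
  refine Finset.sum_congr rfl fun k _ => ?_
  ring

lemma bMat_smul_right {K Z : Type*} [Fintype K] (c r : ℂ) (v f g : K → Z → Z → ℂ) :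
    bMat c v f (fun k s t => r * g k s t) = r • bMat c v f g := by
  ext i j
  simp only [bMat, Matrix.smul_apply, smul_eq_mul]
  rw [Finset.mul_sum, Finset.mul_sum, Finset.mul_sum]
  refine Finset.sum_congr rfl fun k _ => ?_
  ring

lemma TT_add_left (n : ℕ) (a a' b : AA) : TT n (a + a') b = TT n a b + TT n a' b := by
  unfold TT bOp
  rw [← map_add, ← bMat_add_left]
  rfl

lemma TT_add_right (n : ℕ) (a b b' : AA) : TT n a (b + b') = TT n a b + TT n a b' := by
  unfold TT bOp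
  rw [← map_add, ← bMat_add_right]
  rfl

lemma TT_smul_left (n : ℕ) (r : ℂ) (a b : AA) : TT n (r • a) b = r • TT n a b := by
  unfold TT bOp
  rw [← map_smul, ← bMat_smul_left]
  rfl

lemma TT_smul_right (n : ℕ) (r : ℂ) (a b : AA) : TT n a (r • b) = r • TT n a b := by
  unfold TT bOp
  rw [← map_smul, ← bMat_smul_right]
  rfl

/-- the bilinear map -/
def phi : AA →ₗ[ℂ] AA →ₗ[ℂ] (HH →L[ℂ] HH) :=
  LinearMap.mk₂ ℂ (fun a b => blk (fun n => TT n a b) (‖a‖ * ‖b‖) (fun n => TT_norm n a b))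
    (by
      intro a a' b
      refine ContinuousLinearMap.ext fun x => lp.ext (funext fun n => ?_)
      change TT n (a + a') b (x n) = TT n a b (x n) + TT n a' b (x n)
      rw [TT_add_left]; rfl)
    (by
      intro r a b
      refine ContinuousLinearMap.ext fun x => lp.ext (funext fun n => ?_)
      change TT n (r • a) b (x n) = r • TT n a b (x n)
      rw [TT_smul_left]; rfl)
    (by
      intro a b b'
      refine ContinuousLinearMap.ext fun x => lp.ext (funext fun n => ?_)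
      change TT n a (b + b') (x n) = TT n a b (x n) + TT n a b' (x n)
      rw [TT_add_right]; rfl)
    (by
      intro r a b
      refine ContinuousLinearMap.ext fun x => lp.ext (funext fun n => ?_)
      change TT n a (r • b) (x n) = r • TT n a b (x n)
      rw [TT_smul_right]; rfl)

lemma phi_apply (a b : AA) (x : HH) (n : ℕ) : (phi a b x) n = TT n a b (x n) := rfl

theorem phi_jcb : ∃ C : ℝ, ∀ (n m : ℕ) (a : CStarMatrix (Fin n) (Fin n) AA)
          (b : CStarMatrix (Fin m) (Fin m) AA) (x : Fin n × Fin m → HH),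
          ∑ p : Fin n × Fin m, ‖∑ q : Fin n × Fin m, phi (a p.1 q.1) (b p.2 q.2) (x q)‖ ^ 2
            ≤ (C * ‖a‖ * ‖b‖) ^ 2 * ∑ q : Fin n × Fin m, ‖x q‖ ^ 2 := by
  refine ⟨1, fun N M a b x => ?_⟩
  rw [one_mul]
  refine sum_sq_le_of_blocks _ _ _ fun n => ?_
  have e1 : ∀ p : Fin N × Fin M, (∑ q : Fin N × Fin M, phi (a p.1 q.1) (b p.2 q.2) (x q)) n
      = ∑ q : Fin N × Fin M, TT n (a p.1 q.1) (b p.2 q.2) (x q n) := by
    intro p
    rw [lp.coeFn_sum, Finset.sum_apply]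
    rfl
  simp_rw [e1]
  exact TT_ineq n (fun i j => a i j) (fun i j => b i j) ‖a‖ ‖b‖ (norm_nonneg _) (norm_nonneg _)
    (fun ω x => col_bound (mp ω) a x) (fun ω x => col_bound (mp ω) b x) (fun q => x q n)

end

end Pool.Agent.H722B
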